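import Pool.Agent.StarF.Core

/-!
# Two colour Ramsey numbers of star forests: the theorems
-/

set_option autoImplicit false

open Finset

namespace Pool.Agent.StarF

/-- The star forest with the stars `K_{1, n i}`, `i < k`: the vertex `(i, none)` is the centre of
the star `i`, the vertices `(i, some x)` are its leaves. -/
def starForest {k : ℕ} (n : Fin k → ℕ) : SimpleGraph (Σ i : Fin k, Option (Fin (n i))) where
  Adj u v := u.1 = v.1 ∧ ((u.2 = none ∧ v.2 ≠ none) ∨ (u.2 ≠ none ∧ v.2 = none))
  symm := ⟨by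
    rintro u v ⟨h, h' | h'⟩
    · exact ⟨h.symm, Or.inr ⟨h'.2, h'.1⟩⟩
    · exact ⟨h.symm, Or.inl ⟨h'.2, h'.1⟩⟩⟩
  loopless := ⟨by
    rintro u ⟨-, h | h⟩
    · exact h.2 h.1
    · exact h.1 h.2⟩

/-- The Ramsey number `r(F₁, F₂)`: the least `N` such that for every graph `G` on `N` vertices (the
red edges) `G` contains a copy of `F₁` or the complement of `G` (the blue edges) contains a copy of
`F₂`. -/
noncomputable def ramsey {α β : Type} (F₁ : SimpleGraph α) (F₂ : SimpleGraph β) : ℕ :=
  sInf {N : ℕ | ∀ G : SimpleGraph (Fin N), F₁.IsContained G ∨ F₂.IsContained Gᶜ}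

/-! ### copies of star forests -/

lemma contained_of {V : Type} {G : SimpleGraph V} {k : ℕ} (n : Fin k → ℕ) (c : Fin k → V)
    (f : ∀ i : Fin k, Fin (n i) → V) (hc : Function.Injective c)
    (hf : ∀ i x j y, f i x = f j y → (⟨i, x⟩ : Σ i : Fin k, Fin (n i)) = ⟨j, y⟩)
    (hcf : ∀ i x j, f i x ≠ c j) (hadj : ∀ i x, G.Adj (c i) (f i x)) :
    (starForest n).IsContained G := by
  let φ : (Σ i : Fin k, Option (Fin (n i))) → V := fun u => u.2.elim (c u.1) (f u.1)
  refine ⟨⟨⟨φ, ?_⟩, ?_⟩⟩
  · rintro ⟨i, u⟩ ⟨j, v⟩ ⟨h, h'⟩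
    simp only at h
    subst h
    rcases h' with ⟨h1, h2⟩ | ⟨h1, h2⟩
    · simp only at h1 h2
      subst h1
      obtain ⟨y, rfl⟩ := Option.ne_none_iff_exists'.1 h2
      exact hadj i y
    · simp only at h1 h2
      subst h2
      obtain ⟨y, rfl⟩ := Option.ne_none_iff_exists'.1 h1
      exact (hadj i y).symm
  · rintro ⟨i, u⟩ ⟨j, v⟩ h
    cases u with
    | none =>
      cases v with
      | none =>
        have h1 : c i = c j := h
        rw [hc h1]
      | some y =>
        exact absurd (h : c i = f j y).symm (hcf j y i)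
    | some x =>
      cases v with
      | none => exact absurd (h : f i x = c j) (hcf i x j)
      | some y =>
        have h1 := hf i x j y h
        rw [Sigma.mk.injEq] at h1
        obtain ⟨h2, h3⟩ := h1
        subst h2
        rw [eq_of_heq h3]

lemma of_contained {V : Type} {G : SimpleGraph V} {k : ℕ} {n : Fin k → ℕ}
    (h : (starForest n).IsContained G) :
    ∃ (c : Fin k → V) (f : (Σ i : Fin k, Fin (n i)) → V), Function.Injective f ∧
      ∀ x, G.Adj (c x.1) (f x) := by
  obtain ⟨φ⟩ := h
  refine ⟨fun i => φ ⟨i, none⟩, fun x => φ ⟨x.1, some x.2⟩, ?_, ?_⟩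
  · rintro ⟨i, x⟩ ⟨j, y⟩ hxy
    have h1 := φ.injective hxy
    rw [Sigma.mk.injEq] at h1
    obtain ⟨h2, h3⟩ := h1
    simp only at h2
    subst h2
    have h4 := Option.some.inj (eq_of_heq h3)
    simp only at h4
    rw [h4]
  · rintro ⟨i, x⟩
    apply φ.toHom.map_adj
    exact ⟨rfl, Or.inl ⟨rfl, by simp⟩⟩

/-! ### packings -/

section Pack

variable {V : Type} [Fintype V]

open Classical in
/-- The neighbours of the vertices `c t`, `t ∈ J`, outside `S`. -/
noncomputable def nb (G : SimpleGraph V) (c : ℕ → V) (J : Finset ℕ) (S : Finset V) : Finset V :=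
  univ.filter (fun w => w ∉ S ∧ ∃ t ∈ J, G.Adj (c t) w)

open Classical in
/-- The first `i` stars can be placed with surplus `k - i`. -/
def Pack (G : SimpleGraph V) (a : ℕ → ℕ) (k i : ℕ) (c : ℕ → V) : Prop :=
  Set.InjOn c (Set.Iio i) ∧ ∀ J ⊆ range i, J.Nonempty →
    ∑ t ∈ J, a t + (k - i) ≤ (nb G c J ((range i).image c)).card

open Classical in
lemma mem_nb {G : SimpleGraph V} {c : ℕ → V} {J : Finset ℕ} {S : Finset V} {w : V} :
    w ∈ nb G c J S ↔ w ∉ S ∧ ∃ t ∈ J, G.Adj (c t) w := by
  simp [nb]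

open Classical in
/-- Disjoint sets of leaves. -/
lemma leaves {G : SimpleGraph V} {a : ℕ → ℕ} {k i : ℕ} {c : ℕ → V} (h : Pack G a k i c) :
    ∃ D : ℕ → Finset V, (∀ t ∈ range i, D t ⊆ nb G c {t} ((range i).image c) ∧
      (D t).card = a t) ∧
      ∀ s ∈ range i, ∀ t ∈ range i, s ≠ t → Disjoint (D s) (D t) := by
  apply hall
  intro J hJ
  rcases J.eq_empty_or_nonempty with rfl | hne
  · simp
  · have h1 := h.2 J hJ hne
    have h2 : J.biUnion (fun t => nb G c {t} ((range i).image c)) =
        nb G c J ((range i).image c) := by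
      ext w
      simp only [mem_biUnion, mem_nb, mem_singleton]
      constructor
      · rintro ⟨t, ht, h3, s, rfl, h4⟩
        exact ⟨h3, s, ht, h4⟩
      · rintro ⟨h3, t, ht, h4⟩
        exact ⟨t, ht, h3, t, rfl, h4⟩
    rw [h2]
    omega

lemma pack_full {G : SimpleGraph V} {a : ℕ → ℕ} {k : ℕ} {c : ℕ → V} (h : Pack G a k k c) :
    (starForest (fun i : Fin k => a i)).IsContained G := by
  classical
  obtain ⟨D, hD, hdisj⟩ := leaves h
  have hmem : ∀ i : Fin k, (i : ℕ) ∈ range k := fun i => mem_range.2 i.2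
  let f : ∀ i : Fin k, Fin (a i) → V := fun i x =>
    (((D i).equivFinOfCardEq (hD i (hmem i)).2).symm x : V)
  have hfD : ∀ (i : Fin k) (x : Fin (a i)), f i x ∈ D i := fun i x => Subtype.property _
  apply contained_of (fun i : Fin k => a i) (fun i => c i) f
  · intro i j hij
    exact Fin.ext (h.1 i.2 j.2 hij)
  · intro i x j y hxy
    by_cases hij : i = j
    · subst hij
      have h1 : ((D i).equivFinOfCardEq (hD i (hmem i)).2).symm x =
        ((D i).equivFinOfCardEq (hD i (hmem i)).2).symm y := Subtype.ext hxy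
      rw [((D i).equivFinOfCardEq (hD i (hmem i)).2).symm.injective h1]
    · exfalso
      have h1 := hdisj i (hmem i) j (hmem j) (fun h => hij (Fin.ext h))
      apply Finset.disjoint_left.1 h1 (hfD i x)
      rw [hxy]
      exact hfD j y
  · intro i x j hx
    have h1 := mem_nb.1 ((hD i (hmem i)).1 (hfD i x))
    apply h1.1
    rw [hx]
    exact mem_image_of_mem _ (hmem j)
  · intro i x
    have h1 := mem_nb.1 ((hD i (hmem i)).1 (hfD i x))
    obtain ⟨-, s, hs, h2⟩ := h1
    rw [mem_singleton] at hs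
    rw [hs] at h2
    exact h2

lemma exists_max [Nonempty V] {G : SimpleGraph V} {a : ℕ → ℕ} {k : ℕ}
    (h : ¬ (starForest (fun i : Fin k => a i)).IsContained G) :
    ∃ i < k, ∃ c, Pack G a k i c ∧ ∀ c', ¬ Pack G a k (i + 1) c' := by
  by_contra hcon
  push Not at hcon
  have key : ∀ i, i ≤ k → ∃ c, Pack G a k i c := by
    intro i
    induction i with
    | zero =>
      intro _
      refine ⟨fun _ => Classical.arbitrary V, ?_, ?_⟩
      · intro x hx
        exact absurd hx (Nat.not_lt_zero x)
      · intro J hJ hne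
        rw [range_zero, subset_empty] at hJ
        rw [hJ] at hne
        exact absurd hne Finset.not_nonempty_empty
    | succ i ih =>
      intro hi
      obtain ⟨c, hc⟩ := ih (by omega)
      exact hcon i (by omega) c hc
  obtain ⟨c, hc⟩ := key k le_rfl
  exact h (pack_full hc)

open Classical in
lemma violator {G : SimpleGraph V} {a : ℕ → ℕ} {k i : ℕ} {c : ℕ → V} (hi : i < k)
    (h : Pack G a k i c) (hmax : ∀ c', ¬ Pack G a k (i + 1) c') (v : V)
    (hv : v ∉ (range i).image c) :
    ∃ J ⊆ range i, (univ.filter (fun w => w ∉ (range i).image c ∧ w ≠ v ∧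
      (G.Adj v w ∨ ∃ t ∈ J, G.Adj (c t) w))).card + 1 ≤ ∑ t ∈ J, a t + a i + (k - (i + 1)) := by
  set C := (range i).image c with hC
  set c' : ℕ → V := Function.update c i v with hc'
  have hc'i : c' i = v := Function.update_self _ _ _
  have hc't : ∀ t, t < i → c' t = c t := fun t ht => Function.update_of_ne (by omega) _ _
  have hC' : (range (i + 1)).image c' = insert v C := by
    rw [Finset.range_add_one, image_insert, hc'i]
    congr 1
    apply Finset.image_congr
    intro t ht
    rw [coe_range, Set.mem_Iio] at ht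
    exact hc't t ht
  have hinj : Set.InjOn c' (Set.Iio (i + 1)) := by
    intro s hs t ht hst
    rw [Set.mem_Iio] at hs ht
    rcases Nat.lt_succ_iff_lt_or_eq.1 hs with hs | hs <;>
      rcases Nat.lt_succ_iff_lt_or_eq.1 ht with ht | ht
    · rw [hc't s hs, hc't t ht] at hst
      exact h.1 hs ht hst
    · exfalso
      rw [hc't s hs, ht, hc'i] at hst
      exact hv (hst ▸ mem_image_of_mem _ (mem_range.2 hs))
    · exfalso
      rw [hc't t ht, hs, hc'i] at hst
      exact hv (hst ▸ mem_image_of_mem _ (mem_range.2 ht))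
    · rw [hs, ht]
  have h1 := hmax c'
  unfold Pack at h1
  push Not at h1
  obtain ⟨J, hJ, hne, hJ2⟩ := h1 hinj
  rw [hC'] at hJ2
  have hiJ : i ∈ J := by
    by_contra hiJ
    have hJ' : J ⊆ range i := by
      intro t ht
      have := mem_range.1 (hJ ht)
      rw [mem_range]
      have : t ≠ i := fun h => hiJ (h ▸ ht)
      omega
    have h2 := h.2 J hJ' hne
    rw [← hC] at h2
    have h3 : nb G c J C ⊆ insert v (nb G c' J (insert v C)) := by
      intro w hw
      rw [mem_insert]
      by_cases hwv : w = v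
      · exact Or.inl hwv
      · right
        obtain ⟨hw1, t, ht, hw2⟩ := mem_nb.1 hw
        refine mem_nb.2 ⟨?_, t, ht, ?_⟩
        · rw [mem_insert]
          rintro (h | h)
          · exact hwv h
          · exact hw1 h
        · rw [hc't t (mem_range.1 (hJ' ht))]
          exact hw2
    have h4 := (card_le_card h3).trans (card_insert_le _ _)
    omega
  refine ⟨J.erase i, ?_, ?_⟩
  · intro t ht
    have h2 := mem_range.1 (hJ (mem_of_mem_erase ht))
    have h3 := ne_of_mem_erase ht
    rw [mem_range]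
    omega
  · have h2 : univ.filter (fun w => w ∉ C ∧ w ≠ v ∧
        (G.Adj v w ∨ ∃ t ∈ J.erase i, G.Adj (c t) w)) ⊆ nb G c' J (insert v C) := by
      intro w hw
      rw [mem_filter] at hw
      obtain ⟨-, hw1, hw2, hw3⟩ := hw
      refine mem_nb.2 ⟨?_, ?_⟩
      · rw [mem_insert]
        rintro (h | h)
        · exact hw2 h
        · exact hw1 h
      · rcases hw3 with hw3 | ⟨t, ht, hw3⟩
        · exact ⟨i, hiJ, by rw [hc'i]; exact hw3⟩
        · refine ⟨t, mem_of_mem_erase ht, ?_⟩
          have h2 := mem_range.1 (hJ (mem_of_mem_erase ht))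
          have h3 := ne_of_mem_erase ht
          rw [hc't t (by omega)]
          exact hw3
    have h3 := card_le_card h2
    have h4 : ∑ t ∈ J.erase i, a t + a i = ∑ t ∈ J, a t := Finset.sum_erase_add _ _ hiJ
    omega

open Classical in
lemma color_bound {G : SimpleGraph V} {a : ℕ → ℕ} {k i : ℕ} {c : ℕ → V} (hi : i < k)
    (h : Pack G a k i c) (hmax : ∀ c', ¬ Pack G a k (i + 1) c') (C' X : Finset V)
    (hX : X = univ \ ((range i).image c ∪ C')) (P : V → ℝ) (lam : ℝ) (hlam0 : 0 ≤ lam)
    (hlam1 : lam ≤ 1) (hP : ∀ v ∈ X, 0 ≤ P v) (hP1 : ∑ v ∈ X, P v = 1)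
    (hcov : ∀ w ∈ X, lam * (1 - P w) ≤ ∑ v ∈ X, P v * (if G.Adj v w then 1 else 0)) :
    lam * ((X.card : ℝ) - ∑ t ∈ range i, (a t : ℝ)) ≤ a i + ((k - (i + 1) : ℕ) : ℝ) := by
  have hXC : ∀ v ∈ X, v ∉ (range i).image c := by
    intro v hv hvC
    rw [hX, mem_sdiff, mem_union] at hv
    exact hv.2 (Or.inl hvC)
  have hviol : ∀ v, ∃ J ⊆ range i, v ∈ X → (univ.filter (fun w => w ∉ (range i).image c ∧ w ≠ v ∧
      (G.Adj v w ∨ ∃ t ∈ J, G.Adj (c t) w))).card + 1 ≤ ∑ t ∈ J, a t + a i + (k - (i + 1)) := by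
    intro v
    by_cases hv : v ∈ X
    · obtain ⟨J, hJ, hJ2⟩ := violator hi h hmax v (hXC v hv)
      exact ⟨J, hJ, fun _ => hJ2⟩
    · exact ⟨∅, by simp, fun h => absurd h hv⟩
  choose J hJ hJ2 using hviol
  obtain ⟨D, hD, hdisj⟩ := leaves h
  have key := averaging G X (univ \ (range i).image c) ?_ P lam
    (a i + ((k - (i + 1) : ℕ) : ℝ) - 1) (range i) a c D J hlam0
    hlam1 hP hP1 hcov ?_ ?_ (fun t ht => (hD t ht).2) hdisj (fun v _ => hJ v) ?_
  · linarith
  · intro v hv
    rw [mem_sdiff]
    exact ⟨mem_univ _, hXC v hv⟩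
  · intro t ht w hw
    obtain ⟨-, s, hs, h2⟩ := mem_nb.1 ((hD t ht).1 hw)
    rw [mem_singleton] at hs
    rw [hs] at h2
    exact h2
  · intro t ht w hw
    obtain ⟨h1, -⟩ := mem_nb.1 ((hD t ht).1 hw)
    rw [mem_sdiff]
    exact ⟨mem_univ _, h1⟩
  · intro v hv
    have h1 := hJ2 v hv
    have h2 : ((univ \ (range i).image c).filter
        (fun w => w ≠ v ∧ (G.Adj v w ∨ ∃ t ∈ J v, G.Adj (c t) w))).card ≤
        (univ.filter (fun w => w ∉ (range i).image c ∧ w ≠ v ∧
          (G.Adj v w ∨ ∃ t ∈ J v, G.Adj (c t) w))).card := by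
      apply card_le_card
      intro w hw
      rw [mem_filter, mem_sdiff] at hw
      rw [mem_filter]
      exact ⟨mem_univ _, hw.1.2, hw.2⟩
    have h3 : (((univ \ (range i).image c).filter
        (fun w => w ≠ v ∧ (G.Adj v w ∨ ∃ t ∈ J v, G.Adj (c t) w))).card : ℝ) + 1 ≤
        ∑ t ∈ J v, (a t : ℝ) + a i + ((k - (i + 1) : ℕ) : ℝ) := by
      exact_mod_cast (Nat.add_le_add_right h2 1).trans h1
    linarith

/-- **The general bound.** -/
theorem general [Nonempty V] (G : SimpleGraph V) (k l : ℕ) (a b : ℕ → ℕ) (lam : ℝ)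
    (hlam0 : 0 ≤ lam) (hlam1 : lam ≤ 1)
    (h1 : ¬ (starForest (fun i : Fin k => a i)).IsContained G)
    (h2 : ¬ (starForest (fun i : Fin l => b i)).IsContained Gᶜ) :
    ∃ i < k, ∃ j < l,
      lam * ((Fintype.card V : ℝ) - i - j - ∑ t ∈ range i, (a t : ℝ)) ≤
        a i + ((k - (i + 1) : ℕ) : ℝ) ∨
      (1 - lam) * ((Fintype.card V : ℝ) - i - j - ∑ t ∈ range j, (b t : ℝ)) ≤
        b j + ((l - (j + 1) : ℕ) : ℝ) := by
  classical
  obtain ⟨i, hi, c, hc, hcmax⟩ := exists_max h1
  obtain ⟨j, hj, c', hc', hc'max⟩ := exists_max h2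
  refine ⟨i, hi, j, hj, ?_⟩
  set C := (range i).image c with hC
  set C' := (range j).image c' with hC'
  have hCi : C.card ≤ i := by
    have := card_image_le (s := range i) (f := c)
    rwa [card_range] at this
  have hCj : C'.card ≤ j := by
    have := card_image_le (s := range j) (f := c')
    rwa [card_range] at this
  set X : Finset V := univ \ (C ∪ C') with hX
  have hXcard : (Fintype.card V : ℝ) - i - j ≤ X.card := by
    have e1 : (univ : Finset V).card ≤ X.card + (C ∪ C').card := by
      rw [hX]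
      have := Finset.card_sdiff_add_card (univ : Finset V) (C ∪ C')
      rw [this]
      exact card_le_card subset_union_left
    have e2 := card_union_le C C'
    rw [card_univ] at e1
    have e3 : Fintype.card V ≤ X.card + i + j := by omega
    have e4 : (Fintype.card V : ℝ) ≤ X.card + i + j := by exact_mod_cast e3
    linarith
  rcases X.eq_empty_or_nonempty with hXe | hXne
  · left
    rw [hXe, card_empty, Nat.cast_zero] at hXcard
    have e1 : 0 ≤ ∑ t ∈ range i, (a t : ℝ) := Finset.sum_nonneg fun t _ => Nat.cast_nonneg _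
    have e2 : lam * ((Fintype.card V : ℝ) - i - j - ∑ t ∈ range i, (a t : ℝ)) ≤ 0 :=
      mul_nonpos_of_nonneg_of_nonpos hlam0 (by linarith)
    have e3 : (0 : ℝ) ≤ a i + ((k - (i + 1) : ℕ) : ℝ) := by positivity
    linarith
  · set M : V → V → ℝ := fun v w => if v = w then 0 else if G.Adj v w then 1 - lam else -lam
      with hM
    have hMsymm : ∀ v w, M v w = M w v := by
      intro v w
      simp only [hM]
      by_cases h : v = w
      · rw [if_pos h, if_pos h.symm]
      · rw [if_neg h, if_neg (Ne.symm h)]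
        simp only [G.adj_comm v w]
    have hMr : ∀ v w, M v w = (if G.Adj v w then 1 else 0) - lam * (1 - if v = w then 1 else 0) := by
      intro v w
      simp only [hM]
      by_cases h : v = w
      · rw [if_pos h, if_pos h, h, if_neg (G.irrefl)]
        ring
      · rw [if_neg h, if_neg h]
        split_ifs
        · ring
        · ring
    have hMb : ∀ v w, M v w = (1 - lam) * (1 - if v = w then 1 else 0) -
        (if Gᶜ.Adj v w then 1 else 0) := by
      intro v w
      rw [hMr]
      by_cases h : v = w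
      · subst h
        rw [if_pos rfl, if_neg (G.irrefl), if_neg (Gᶜ.irrefl)]
        ring
      · rw [if_neg h]
        by_cases h' : G.Adj v w
        · rw [if_pos h', if_neg (fun h3 => (G.compl_adj v w).1 h3 |>.2 h')]
          ring
        · rw [if_neg h', if_pos ((G.compl_adj v w).2 ⟨h, h'⟩)]
          ring
    have hPw : ∀ (P : V → ℝ), ∑ v ∈ X, P v = 1 → ∀ w ∈ X,
        ∑ v ∈ X, P v * (1 - if v = w then 1 else 0) = 1 - P w := by
      intro P hP w hw
      have e1 : ∀ v ∈ X, P v * (1 - if v = w then 1 else 0) = P v - if v = w then P v else 0 := by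
        intro v _
        split_ifs
        · ring
        · ring
      rw [Finset.sum_congr rfl e1, Finset.sum_sub_distrib, hP, Finset.sum_ite_eq' X w P,
        if_pos hw]
    rcases ville X hXne M hMsymm with ⟨P, hP0, hP1, hP⟩ | ⟨P, hP0, hP1, hP⟩
    · left
      have key := color_bound hi hc hcmax C' X hX P lam hlam0 hlam1 hP0 hP1 ?_
      · have e2 := mul_le_mul_of_nonneg_left (sub_le_sub_right hXcard
          (∑ t ∈ range i, (a t : ℝ))) hlam0
        linarith
      · intro w hw
        have e1 := hP w hw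
        have e2 : ∑ v ∈ X, P v * M v w = ∑ v ∈ X, P v * (if G.Adj v w then 1 else 0) -
            lam * (1 - P w) := by
          rw [← hPw P hP1 w hw, Finset.mul_sum, ← Finset.sum_sub_distrib]
          apply Finset.sum_congr rfl
          intro v _
          rw [hMr]
          ring
        rw [e2] at e1
        linarith
    · right
      have hX' : X = univ \ (C' ∪ C) := by rw [hX, union_comm]
      have key := color_bound hj hc' hc'max C X hX' P (1 - lam) (by linarith) (by linarith)
        hP0 hP1 ?_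
      · have e2 := mul_le_mul_of_nonneg_left (sub_le_sub_right hXcard
          (∑ t ∈ range j, (b t : ℝ))) (by linarith : 0 ≤ 1 - lam)
        linarith
      · intro w hw
        have e1 := hP w hw
        have e2 : ∑ v ∈ X, P v * M v w = (1 - lam) * (1 - P w) -
            ∑ v ∈ X, P v * (if Gᶜ.Adj v w then 1 else 0) := by
          rw [← hPw P hP1 w hw, Finset.mul_sum, ← Finset.sum_sub_distrib]
          apply Finset.sum_congr rfl
          intro v _
          rw [hMb]
          ring
        rw [e2] at e1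
        calc (1 - lam) * (1 - P w) ≤ ∑ v ∈ X, P v * (if Gᶜ.Adj v w then 1 else 0) := by linarith
          _ = _ := by
            apply Finset.sum_congr rfl
            intro v _
            congr

end Pack

end Pool.Agent.StarF
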