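import Mathlib

/-!
# Two colour Ramsey numbers of star forests: the tools

A finite minimax theorem, Hall's theorem with demands, the averaging lemma.
-/

set_option autoImplicit false

open Finset

namespace Pool.Agent.StarF

/-! ### minimax -/

/-- The minimax theorem for a symmetric matrix. -/
lemma ville_type {ι : Type*} [Fintype ι] [Nonempty ι] (M : ι → ι → ℝ)
    (hM : ∀ v w, M v w = M w v) :
    (∃ P ∈ stdSimplex ℝ ι, ∀ w, 0 ≤ ∑ v, P v * M v w) ∨
      (∃ P ∈ stdSimplex ℝ ι, ∀ w, ∑ v, P v * M v w ≤ 0) := by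
  classical
  set f : (ι → ℝ) → (ι → ℝ) → ℝ := fun x y => ∑ v, ∑ w, x v * M v w * y w with hf
  have hne : (stdSimplex ℝ ι).Nonempty :=
    ⟨_, single_mem_stdSimplex ℝ (Classical.arbitrary ι)⟩
  have hconv := convex_stdSimplex ℝ ι
  have hcomp := isCompact_stdSimplex ℝ ι
  have hc1 : ∀ y, Continuous fun x => f x y := by
    intro y
    simp only [hf]
    fun_prop
  have hc2 : ∀ x, Continuous fun y => f x y := by
    intro x
    simp only [hf]
    fun_prop
  have hl1 : ∀ y, IsLinearMap ℝ fun x => f x y := by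
    intro y
    constructor
    · intro x x'
      simp only [hf, ← Finset.sum_add_distrib, Pi.add_apply]
      refine Finset.sum_congr rfl fun v _ => Finset.sum_congr rfl fun w _ => ?_
      ring
    · intro r x
      simp only [hf, smul_eq_mul, Finset.mul_sum, Pi.smul_apply]
      refine Finset.sum_congr rfl fun v _ => Finset.sum_congr rfl fun w _ => ?_
      ring
  have hl2 : ∀ x, IsLinearMap ℝ fun y => f x y := by
    intro x
    constructor
    · intro y y'
      simp only [hf, ← Finset.sum_add_distrib, Pi.add_apply]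
      refine Finset.sum_congr rfl fun v _ => Finset.sum_congr rfl fun w _ => ?_
      ring
    · intro r y
      simp only [hf, smul_eq_mul, Finset.mul_sum, Pi.smul_apply]
      refine Finset.sum_congr rfl fun v _ => Finset.sum_congr rfl fun w _ => ?_
      ring
  obtain ⟨a, ha, b, hb, hab⟩ := Sion.exists_isSaddlePointOn (X := stdSimplex ℝ ι)
    (Y := stdSimplex ℝ ι) (f := f) hne hconv hcomp
    (fun y _ => (hc1 y).lowerSemicontinuous.lowerSemicontinuousOn _)
    (fun y _ => ((hl1 y).mk' _).convexOn hconv |>.quasiconvexOn)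
    hconv hne hcomp
    (fun x _ => (hc2 x).upperSemicontinuous.upperSemicontinuousOn _)
    (fun x _ => ((hl2 x).mk' _).concaveOn hconv |>.quasiconcaveOn)
  have hsingle : ∀ w, (Pi.single w 1 : ι → ℝ) ∈ stdSimplex ℝ ι := fun w =>
    single_mem_stdSimplex ℝ w
  have e1 : ∀ w, f (Pi.single w 1) b = ∑ v, b v * M v w := by
    intro w
    simp only [hf]
    rw [Finset.sum_eq_single w]
    · apply Finset.sum_congr rfl
      intro v _
      rw [Pi.single_eq_same, hM w v]
      ring
    · intro v _ hv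
      apply Finset.sum_eq_zero
      intro u _
      rw [Pi.single_eq_of_ne hv]
      ring
    · intro h
      exact absurd (mem_univ w) h
  have e2 : ∀ w, f a (Pi.single w 1) = ∑ v, a v * M v w := by
    intro w
    simp only [hf]
    apply Finset.sum_congr rfl
    intro v _
    rw [Finset.sum_eq_single w]
    · rw [Pi.single_eq_same, mul_one]
    · intro u _ hu
      rw [Pi.single_eq_of_ne hu, mul_zero]
    · intro h
      exact absurd (mem_univ w) h
  rcases le_total 0 (f a b) with h | h
  · left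
    refine ⟨b, hb, fun w => ?_⟩
    rw [← e1]
    exact h.trans (hab _ (hsingle w) b hb)
  · right
    refine ⟨a, ha, fun w => ?_⟩
    rw [← e2]
    exact (hab a ha _ (hsingle w)).trans h

/-- The minimax theorem for a symmetric matrix indexed by a finite set. -/
lemma ville {V : Type*} [DecidableEq V] (X : Finset V) (hX : X.Nonempty) (M : V → V → ℝ)
    (hM : ∀ v w, M v w = M w v) :
    (∃ P : V → ℝ, (∀ v ∈ X, 0 ≤ P v) ∧ ∑ v ∈ X, P v = 1 ∧ ∀ w ∈ X, 0 ≤ ∑ v ∈ X, P v * M v w) ∨
      (∃ P : V → ℝ, (∀ v ∈ X, 0 ≤ P v) ∧ ∑ v ∈ X, P v = 1 ∧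
        ∀ w ∈ X, ∑ v ∈ X, P v * M v w ≤ 0) := by
  have : Nonempty X := hX.to_subtype
  have key : ∀ P : X → ℝ, ∃ P' : V → ℝ, (∀ v : X, P' v = P v) := by
    intro P
    refine ⟨fun v => if h : v ∈ X then P ⟨v, h⟩ else 0, fun v => ?_⟩
    simp
  have conv : ∀ (P : X → ℝ) (P' : V → ℝ), (∀ v : X, P' v = P v) → P ∈ stdSimplex ℝ X →
      (∀ v ∈ X, 0 ≤ P' v) ∧ ∑ v ∈ X, P' v = 1 ∧
      ∀ w : X, ∑ v ∈ X, P' v * M v w = ∑ v : X, P v * M v w := by
    intro P P' hP' hP
    refine ⟨fun v hv => ?_, ?_, fun w => ?_⟩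
    · have := hP.1 ⟨v, hv⟩
      rw [← hP' ⟨v, hv⟩] at this
      exact this
    · rw [← Finset.sum_coe_sort X]
      rw [← hP.2]
      exact Finset.sum_congr rfl fun v _ => hP' v
    · rw [← Finset.sum_coe_sort X]
      exact Finset.sum_congr rfl fun v _ => by rw [hP' v]
  rcases ville_type (fun v w : X => M v w) (fun v w => hM v w) with ⟨P, hP, h⟩ | ⟨P, hP, h⟩
  · left
    obtain ⟨P', hP'⟩ := key P
    obtain ⟨h1, h2, h3⟩ := conv P P' hP' hP
    exact ⟨P', h1, h2, fun w hw => by rw [h3 ⟨w, hw⟩]; exact h ⟨w, hw⟩⟩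
  · right
    obtain ⟨P', hP'⟩ := key P
    obtain ⟨h1, h2, h3⟩ := conv P P' hP' hP
    exact ⟨P', h1, h2, fun w hw => by rw [h3 ⟨w, hw⟩]; exact h ⟨w, hw⟩⟩

/-! ### Hall's theorem with demands -/

/-- Hall's theorem with demands. -/
lemma hall {V : Type*} [DecidableEq V] (I : Finset ℕ) (a : ℕ → ℕ) (A : ℕ → Finset V)
    (h : ∀ J ⊆ I, ∑ t ∈ J, a t ≤ (J.biUnion A).card) :
    ∃ D : ℕ → Finset V, (∀ t ∈ I, D t ⊆ A t ∧ (D t).card = a t) ∧
      ∀ s ∈ I, ∀ t ∈ I, s ≠ t → Disjoint (D s) (D t) := by
  classical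
  have hall' := (Finset.all_card_le_biUnion_card_iff_exists_injective
    (fun p : {p : ℕ × ℕ // p.1 ∈ I ∧ p.2 < a p.1} => A p.1.1)).1 ?_
  · obtain ⟨f, hf, hfA⟩ := hall'
    refine ⟨fun t => if ht : t ∈ I then
      (univ : Finset (Fin (a t))).image (fun r : Fin (a t) => f ⟨(t, (r : ℕ)), ht, r.2⟩)
        else ∅, ?_, ?_⟩
    · intro t ht
      simp only [dif_pos ht]
      refine ⟨?_, ?_⟩
      · intro v hv
        rw [mem_image] at hv
        obtain ⟨r, -, rfl⟩ := hv
        exact hfA _
      · rw [card_image_of_injective, card_univ, Fintype.card_fin]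
        intro r r' hr
        have h1 := hf hr
        rw [Subtype.mk.injEq, Prod.mk.injEq] at h1
        exact Fin.ext h1.2
    · intro s hs t ht hst
      simp only [dif_pos hs, dif_pos ht]
      rw [Finset.disjoint_left]
      intro v hv hv'
      rw [mem_image] at hv hv'
      obtain ⟨r, -, hr⟩ := hv
      obtain ⟨r', -, hr'⟩ := hv'
      have h1 := hf (hr.trans hr'.symm)
      rw [Subtype.mk.injEq, Prod.mk.injEq] at h1
      exact hst h1.1
  · intro s
    set J : Finset ℕ := s.image (fun p => p.1.1) with hJ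
    have hJI : J ⊆ I := by
      intro t ht
      rw [hJ, mem_image] at ht
      obtain ⟨p, -, rfl⟩ := ht
      exact p.2.1
    calc s.card = ∑ t ∈ J, (s.filter (fun p => p.1.1 = t)).card :=
          Finset.card_eq_sum_card_fiberwise fun p hp => mem_image_of_mem _ hp
      _ ≤ ∑ t ∈ J, a t := by
          apply Finset.sum_le_sum
          intro t _
          have h1 : (s.filter (fun p => p.1.1 = t)).card ≤ (range (a t)).card := by
            apply Finset.card_le_card_of_injOn (fun p => p.1.2)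
            · intro p hp
              rw [coe_filter, Set.mem_ofPred_eq] at hp
              rw [coe_range, Set.mem_Iio]
              have := p.2.2
              rw [hp.2] at this
              exact this
            · intro p hp q hq hpq
              rw [coe_filter, Set.mem_ofPred_eq] at hp hq
              apply Subtype.ext
              exact Prod.ext (hp.2.trans hq.2.symm) hpq
          rwa [card_range] at h1
      _ ≤ (J.biUnion A).card := h J hJI
      _ ≤ (s.biUnion fun p => A p.1.1).card := by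
          apply card_le_card
          intro v hv
          rw [mem_biUnion] at hv ⊢
          obtain ⟨t, ht, hv⟩ := hv
          rw [hJ, mem_image] at ht
          obtain ⟨p, hp, rfl⟩ := ht
          exact ⟨p, hp, hv⟩

/-! ### averaging -/

open Classical in
/-- The averaging lemma. -/
lemma averaging {V : Type*} (G : SimpleGraph V) (X Y : Finset V) (hXY : X ⊆ Y)
    (P : V → ℝ) (lam b : ℝ) (I : Finset ℕ) (a : ℕ → ℕ) (c : ℕ → V) (D : ℕ → Finset V)
    (J : V → Finset ℕ) (hlam0 : 0 ≤ lam) (hlam1 : lam ≤ 1) (hP : ∀ v ∈ X, 0 ≤ P v)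
    (hP1 : ∑ v ∈ X, P v = 1)
    (hcov : ∀ w ∈ X, lam * (1 - P w) ≤ ∑ v ∈ X, P v * (if G.Adj v w then 1 else 0))
    (hD : ∀ t ∈ I, ∀ w ∈ D t, G.Adj (c t) w) (hDY : ∀ t ∈ I, D t ⊆ Y)
    (hDc : ∀ t ∈ I, (D t).card = a t)
    (hdisj : ∀ s ∈ I, ∀ t ∈ I, s ≠ t → Disjoint (D s) (D t))
    (hJ : ∀ v ∈ X, J v ⊆ I)
    (hT : ∀ v ∈ X, ((Y.filter (fun w => w ≠ v ∧ (G.Adj v w ∨ ∃ t ∈ J v, G.Adj (c t) w))).card : ℝ)
      ≤ ∑ t ∈ J v, (a t : ℝ) + b) :
    lam * ((X.card : ℝ) - ∑ t ∈ I, (a t : ℝ)) ≤ b + 1 := by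
  set q : ℕ → ℝ := fun t => ∑ v ∈ X, if t ∈ J v then P v else 0 with hq
  set p : V → ℝ := fun w => ∑ v ∈ X,
    if (w ≠ v ∧ (G.Adj v w ∨ ∃ t ∈ J v, G.Adj (c t) w)) then P v else 0 with hp
  have hp0 : ∀ w, 0 ≤ p w := by
    intro w
    apply Finset.sum_nonneg
    intro v hv
    split_ifs
    · exact hP v hv
    · exact le_rfl
  -- double counting
  have step1 : ∑ w ∈ Y, p w ≤ ∑ t ∈ I, (a t : ℝ) * q t + b := by
    have e1 : ∑ w ∈ Y, p w = ∑ v ∈ X, P v *
        ((Y.filter (fun w => w ≠ v ∧ (G.Adj v w ∨ ∃ t ∈ J v, G.Adj (c t) w))).card : ℝ) := by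
      simp only [hp]
      rw [Finset.sum_comm]
      apply Finset.sum_congr rfl
      intro v _
      rw [← Finset.sum_filter, Finset.sum_const, nsmul_eq_mul, mul_comm]
    have e2 : ∑ v ∈ X, P v * (∑ t ∈ J v, (a t : ℝ) + b) = ∑ t ∈ I, (a t : ℝ) * q t + b := by
      have e3 : ∀ v ∈ X, P v * (∑ t ∈ J v, (a t : ℝ) + b) =
          ∑ t ∈ I, (a t : ℝ) * (if t ∈ J v then P v else 0) + P v * b := by
        intro v hv
        rw [mul_add]
        congr 1
        have e4 : J v = I.filter (fun t => t ∈ J v) := by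
          ext t
          rw [mem_filter]
          exact ⟨fun h => ⟨hJ v hv h, h⟩, fun h => h.2⟩
        rw [Finset.mul_sum]
        conv_lhs => rw [e4]
        rw [Finset.sum_filter]
        apply Finset.sum_congr rfl
        intro t _
        split_ifs
        · ring
        · ring
      rw [Finset.sum_congr rfl e3, Finset.sum_add_distrib, ← Finset.sum_mul, hP1, one_mul,
        Finset.sum_comm]
      congr 1
      apply Finset.sum_congr rfl
      intro t _
      rw [hq, Finset.mul_sum]
    rw [e1, ← e2]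
    apply Finset.sum_le_sum
    intro v hv
    exact mul_le_mul_of_nonneg_left (hT v hv) (hP v hv)
  -- the lower bound for `p`
  have step2 : ∀ w ∈ Y, ∑ t ∈ I, (if w ∈ D t then q t else 0) +
      (if w ∈ X then lam * (1 - ∑ t ∈ I, (if w ∈ D t then (1 : ℝ) else 0)) else 0) ≤
      p w + (if w ∈ X then P w else 0) := by
    intro w hw
    by_cases hex : ∃ t ∈ I, w ∈ D t
    · obtain ⟨t, ht, hwt⟩ := hex
      have huniq : ∀ s ∈ I, s ≠ t → w ∉ D s := by
        intro s hs hst hws
        exact Finset.disjoint_left.1 (hdisj s hs t ht hst) hws hwt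
      have s1 : ∑ t ∈ I, (if w ∈ D t then q t else 0) = q t := by
        rw [Finset.sum_eq_single_of_mem t ht]
        · rw [if_pos hwt]
        · intro s hs hst
          rw [if_neg (huniq s hs hst)]
      have s2 : ∑ t ∈ I, (if w ∈ D t then (1 : ℝ) else 0) = 1 := by
        rw [Finset.sum_eq_single_of_mem t ht]
        · rw [if_pos hwt]
        · intro s hs hst
          rw [if_neg (huniq s hs hst)]
      rw [s1, s2, sub_self, mul_zero, ite_self, add_zero]
      have s3 : (if w ∈ X then P w else 0) = ∑ v ∈ X, if v = w then P v else 0 := by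
        rw [Finset.sum_ite_eq' X w P]
      rw [s3]
      simp only [hq, hp]
      rw [← Finset.sum_add_distrib]
      apply Finset.sum_le_sum
      intro v hv
      have hPv := hP v hv
      by_cases h1 : t ∈ J v
      · rw [if_pos h1]
        by_cases h2 : v = w
        · rw [if_pos h2]
          have : 0 ≤ (if (w ≠ v ∧ (G.Adj v w ∨ ∃ t ∈ J v, G.Adj (c t) w)) then P v else 0) := by
            split_ifs
            · exact hPv
            · exact le_rfl
          linarith
        · have h3 : (w ≠ v ∧ (G.Adj v w ∨ ∃ t ∈ J v, G.Adj (c t) w)) :=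
            ⟨fun h => h2 h.symm, Or.inr ⟨t, h1, hD t ht w hwt⟩⟩
          rw [if_pos h3, if_neg h2, add_zero]
      · rw [if_neg h1]
        apply add_nonneg
        · split_ifs
          · exact hPv
          · exact le_rfl
        · split_ifs
          · exact hPv
          · exact le_rfl
    · push Not at hex
      have s1 : ∑ t ∈ I, (if w ∈ D t then q t else 0) = 0 := by
        apply Finset.sum_eq_zero
        intro t ht
        rw [if_neg (hex t ht)]
      have s2 : ∑ t ∈ I, (if w ∈ D t then (1 : ℝ) else 0) = 0 := by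
        apply Finset.sum_eq_zero
        intro t ht
        rw [if_neg (hex t ht)]
      rw [s1, s2, sub_zero, mul_one, zero_add]
      by_cases hwX : w ∈ X
      · rw [if_pos hwX, if_pos hwX]
        have s3 : ∑ v ∈ X, P v * (if G.Adj v w then 1 else 0) ≤ p w := by
          apply Finset.sum_le_sum
          intro v hv
          have hPv := hP v hv
          by_cases h1 : G.Adj v w
          · rw [if_pos h1, mul_one, if_pos ⟨h1.ne', Or.inl h1⟩]
          · rw [if_neg h1, mul_zero]
            split_ifs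
            · exact hPv
            · exact le_rfl
        have s4 := hcov w hwX
        have s5 := hP w hwX
        nlinarith
      · rw [if_neg hwX, if_neg hwX, add_zero]
        exact hp0 w
  -- summation
  have step3 : ∑ t ∈ I, (a t : ℝ) * q t +
      lam * ((X.card : ℝ) - ∑ t ∈ I, ((X ∩ D t).card : ℝ)) ≤ ∑ w ∈ Y, p w + 1 := by
    have h1 := Finset.sum_le_sum step2
    have hXf : Y.filter (fun w => w ∈ X) = X := by
      ext w
      rw [mem_filter]
      exact ⟨fun h => h.2, fun h => ⟨hXY h, h⟩⟩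
    rw [Finset.sum_add_distrib, Finset.sum_add_distrib, ← Finset.sum_filter,
      ← Finset.sum_filter, hXf, hP1, ← Finset.mul_sum,
      Finset.sum_sub_distrib, Finset.sum_comm, Finset.sum_comm (s := X) (t := I)] at h1
    have h2 : ∀ t ∈ I, ∑ w ∈ Y, (if w ∈ D t then q t else 0) = (a t : ℝ) * q t := by
      intro t ht
      rw [← Finset.sum_filter, Finset.sum_const, nsmul_eq_mul, Finset.filter_mem_eq_inter,
        inter_eq_right.2 (hDY t ht), hDc t ht]
    have h3 : ∀ t, ∑ w ∈ X, (if w ∈ D t then (1 : ℝ) else 0) = ((X ∩ D t).card : ℝ) := by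
      intro t
      rw [← Finset.sum_filter, Finset.sum_const, nsmul_eq_mul, Finset.filter_mem_eq_inter,
        mul_one]
    rw [Finset.sum_congr rfl h2, Finset.sum_congr rfl fun t _ => h3 t,
      Finset.sum_const, nsmul_eq_mul, mul_one] at h1
    exact h1
  -- the sets `D t`
  have step5 : ∑ t ∈ I, ((X ∩ D t).card : ℝ) ≤ ∑ t ∈ I, (a t : ℝ) := by
    apply Finset.sum_le_sum
    intro t ht
    rw [← hDc t ht]
    exact_mod_cast card_le_card inter_subset_right
  have step6 : lam * ((X.card : ℝ) - ∑ t ∈ I, (a t : ℝ)) ≤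
      lam * ((X.card : ℝ) - ∑ t ∈ I, ((X ∩ D t).card : ℝ)) :=
    mul_le_mul_of_nonneg_left (by linarith) hlam0
  linarith

end Pool.Agent.StarF
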