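import Pool.Agent.StarF.Main

set_option autoImplicit false

open Finset Pool.Agent.StarF

namespace Pool.Agent.Results.MP_705b7e_co.OffDiagonal

lemma nat_sizes {k : ℕ} (n : Fin k → ℕ) : ∃ a : ℕ → ℕ, n = fun i : Fin k => a i := by
  refine ⟨fun t => if h : t < k then n ⟨t, h⟩ else 0, ?_⟩
  funext i
  simp

lemma sum_Iio {k : ℕ} (a : ℕ → ℕ) (j : Fin k) :
    ∑ i ∈ Iio j, (a i : ℝ) = ∑ t ∈ range j, (a t : ℝ) := by
  have h : (Iio j).map Fin.valEmbedding = range j := by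
    rw [Fin.map_valEmbedding_Iio]
    ext t
    simp
  rw [← h, Finset.sum_map]
  rfl

/-- **An upper bound for all pairs of star forests.** -/
theorem result (k l : ℕ) (hk : 1 ≤ k) (hl : 1 ≤ l) (m : Fin k → ℕ) (n : Fin l → ℕ) (lam : ℝ)
    (hlam0 : 0 < lam) (hlam1 : lam < 1) (N : ℕ)
    (hm : ∀ i : Fin k, ∑ t ∈ Iio i, (m t : ℝ) + (m i + k) / lam + k + l ≤ N)
    (hn : ∀ j : Fin l, ∑ t ∈ Iio j, (n t : ℝ) + (n j + l) / (1 - lam) + k + l ≤ N) :
    ramsey (starForest m) (starForest n) ≤ N := by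
  obtain ⟨a, rfl⟩ := nat_sizes m
  obtain ⟨b, rfl⟩ := nat_sizes n
  have hN : 1 ≤ N := by
    have h1 := hm ⟨0, hk⟩
    rw [sum_Iio] at h1
    have h2 : (0 : ℝ) ≤ ∑ t ∈ range ((⟨0, hk⟩ : Fin k) : ℕ), (a t : ℝ) :=
      Finset.sum_nonneg fun t _ => Nat.cast_nonneg _
    have h3 : (0 : ℝ) ≤ ((a ((⟨0, hk⟩ : Fin k) : ℕ) : ℝ) + k) / lam := by positivity
    have h4 : (1 : ℝ) ≤ k := by exact_mod_cast hk
    have h5 : (1 : ℝ) ≤ l := by exact_mod_cast hl
    have h6 : (1 : ℝ) ≤ N := by linarith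
    exact_mod_cast h6
  apply Nat.sInf_le
  intro G
  have : Nonempty (Fin N) := ⟨⟨0, by omega⟩⟩
  by_contra hcon
  rw [not_or] at hcon
  obtain ⟨i, hi, j, hj, h⟩ := general G k l a b lam hlam0.le hlam1.le hcon.1 hcon.2
  rw [Fintype.card_fin] at h
  have hi1 : (i : ℝ) + 1 ≤ k := by exact_mod_cast hi
  have hj1 : (j : ℝ) + 1 ≤ l := by exact_mod_cast hj
  have hi0 : (0 : ℝ) ≤ i := Nat.cast_nonneg i
  have hj0 : (0 : ℝ) ≤ j := Nat.cast_nonneg j
  rcases h with h | h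
  · have h1 := hm ⟨i, hi⟩
    rw [sum_Iio] at h1
    simp only at h1
    rw [Nat.cast_sub (by omega)] at h
    push_cast at h
    have h2 : (((a i : ℕ) : ℝ) + k) / lam ≤ N - k - l - ∑ t ∈ range i, (a t : ℝ) := by linarith
    rw [div_le_iff₀ hlam0] at h2
    nlinarith
  · have h1 := hn ⟨j, hj⟩
    rw [sum_Iio] at h1
    simp only at h1
    rw [Nat.cast_sub (by omega)] at h
    push_cast at h
    have hlam' : 0 < 1 - lam := by linarith
    have h2 : (((b j : ℕ) : ℝ) + l) / (1 - lam) ≤ N - k - l - ∑ t ∈ range j, (b t : ℝ) := by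
      linarith
    rw [div_le_iff₀ hlam'] at h2
    nlinarith

end Pool.Agent.Results.MP_705b7e_co.OffDiagonal
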